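import Pool.Agent.FS.DirCol.C

namespace Pool.Agent.Results.MP_a2bc17_lc.DirectedColouring

open ZFSet Pool.Agent.Lib.MP_329f2d_lc Pool.Agent.Lib.MP_a2bc17_lc Pool.Agent.FS.DirCol

/-- Let `N` be a countable transitive model of ZFC, `ν < ρ < κ < μ` with `ν`, `ρ`, `μ` regular in
`N`, `L` a transitive relation that is `μ⁺`-directed on `Λ` in `N`, and `c ∈ N` a colouring of the
pairs of `Λ` with `ν` colours that is subadditive and strongly unbounded in `N`.  Then a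
`μ`-directed closed forcing in `N` destroys `Δ_{κ,μ}`. -/
theorem result (N : Set V) (hN : ZFC N) (hc : N.Countable) (ν ρ κ μ Λ L c : V)
    (hν : Regu N ν) (hρ : Regu N ρ) (hμ : Regu N μ) (hνρ : ν ∈ ρ) (hρκ : ρ ∈ κ) (hκ : κ ∈ μ)
    (hΛ : Λ ∈ N) (hL : L ∈ N) (htr : ∀ a b d, pair a b ∈ L → pair b d ∈ L → pair a d ∈ L)
    (hd : ∀ a ∈ insert μ μ, Bnd N Λ L a)
    (hcN : c ∈ N) (hcf : IsFunc (prod Λ Λ) ν c) (hsa : SubaddL c L ν) (hsu : StrUnbL N c Λ L ν) :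
    ∃ Q ∈ N, Po Q ∧ DirCl N Q μ ∧ (∃ H, Generic N Q H) ∧
      ∀ H, Generic N Q H → ¬ DeltaRefl (Ext N H) κ μ :=
  mainR hN hc hμ ⟨hΛ, hL, fun a b => htr _ _ _ a b, hd⟩ hκ hν hρ hνρ hρκ hcN hcf hsa hsu

end Pool.Agent.Results.MP_a2bc17_lc.DirectedColouring
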