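import Pool.Agent.FS.IndexedSquare.C2

namespace Pool.Agent.Results.MP_a2bc17_lc.IndexedSquare

open ZFSet Pool.Agent.Lib.MP_329f2d_lc Pool.Agent.Lib.MP_a2bc17_lc Pool.Agent.FS.IndexedSquare

/-- Let `N` be a countable transitive model of ZFC, `ν < ρ < κ < μ ≤ θ` with `ν`, `ρ`, `μ`, `θ`
regular in `N`, and let `c ∈ N` be a colouring of the pairs of `θ` with `ν` colours that is
subadditive and strongly unbounded in `N`, and closed in case `θ = μ`.  Then a `μ`-directed closed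
forcing in `N` destroys `Δ_{κ,μ}`. -/
theorem result (N : Set V) (hN : ZFC N) (hc : N.Countable) (ν ρ κ μ θ c : V)
    (hν : Regu N ν) (hρ : Regu N ρ) (hμ : Regu N μ) (hθ : Regu N θ)
    (hνρ : ν ∈ ρ) (hρκ : ρ ∈ κ) (hκ : κ ∈ μ) (hμθ : μ ⊆ θ)
    (hcN : c ∈ N) (hcf : IsFunc (prod θ θ) ν c) (hsa : Subadd c θ ν) (hsu : StrUnb N c θ ν)
    (hcl : θ = μ → ClosedCol c θ ν) :
    ∃ Q ∈ N, Po Q ∧ DirCl N Q μ ∧ (∃ H, Generic N Q H) ∧
      ∀ H, Generic N Q H → ¬ DeltaRefl (Ext N H) κ μ :=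
  main hN hc hμ hθ hμθ hκ hν hρ hνρ hρκ hcN hcf hsa hcl hsu

end Pool.Agent.Results.MP_a2bc17_lc.IndexedSquare
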