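import Pool.Agent.Lib.MP_a2bc17_lc.Dist

namespace Pool.Agent.Results.MP_a2bc17_lc.InnerModelObstruction

open ZFSet Pool.Agent.Lib.MP_329f2d_lc Pool.Agent.Lib.MP_a2bc17_lc

/-- Let `N` be a countable transitive model of ZFC, `μ` regular in `N`, `κ < μ`, `0 < σ < μ` with
`cf σ < κ` in `N`.  Let `𝒲` be a family of transitive models of ZF without Power Set and `U ∈ N` a
set each of whose elements lies in some model of the family.  Assume (i) some `b ∈ N` is unbounded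
in `σ` but no subset of `b` in a model of the family is; (ii) for every function `F` in `N` some
`e : σ → μ` in `N` and in all models of the family has `F(e ↾ ξ) < e(ξ)` whenever `F(e ↾ ξ) < μ` is
defined; (iii) for some algebra `A` on `μ` in `N` with fewer than `κ` operations and every
subalgebra `B` in `N` of regular order type below `κ`, every set in `N` unbounded in `sup B` has a
subset in `U` unbounded in `sup B` (if `σ = ω`, a subset of its closure is enough).  Then a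
`μ`-directed closed forcing in `N` destroys `Δ_{κ,μ}`.  The case of a nontrivial forcing extension
`N = W[G]` by a forcing of size below `κ` is derived from this as `small_forcing` in
`Lib/MP_a2bc17_lc/Small.lean`, and the case of further extensions without new short sequences as
`small_then_distributive` in `Dist.lean`. -/
theorem result (𝒲 : Set (Set V)) (N : Set V) (hW : ∀ W ∈ 𝒲, ZFm W ∅) (hN : ZFC N)
    (hc : N.Countable) (κ μ σ U b ν A : V) (hμ : Regu N μ) (hκ : κ ∈ μ) (hσμ : σ ∈ μ)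
    (hσ0 : σ ≠ ∅) (hσ : CofLt N σ κ) (hU : U ∈ N) (hUW : ∀ Y ∈ U, ∃ W ∈ 𝒲, Y ∈ W)
    (hb : b ∈ N) (hb1 : Unb b σ) (hb2 : ∀ W ∈ 𝒲, ∀ Y ∈ W, Y ⊆ b → ¬ Unb Y σ)
    (hF : ∀ F ∈ N, (∀ s y z, pair s y ∈ F → pair s z ∈ F → y = z) →
      ∃ e ∈ N, (∀ W ∈ 𝒲, e ∈ W) ∧ IsFunc σ μ e ∧ ∀ ξ ∈ σ, ∀ x y, pair ξ x ∈ e → y ∈ μ →
        pair (e ∩ prod ξ μ) y ∈ F → y ∈ x)
    (hν : ν ∈ κ) (hνc : Card N ν) (hA : A ∈ N) (hAl : Alg A ν μ)
    (hcov : ∀ B ∈ N, Subalg A μ B → ∀ ρ ∈ κ, Regu N ρ → Otp N B ρ →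
      ∀ X ∈ N, Unb X (⋃₀ B) → ∃ Y ∈ U, Y ⊆ ⋃₀ B ∧ Unb Y (⋃₀ B) ∧
        ∀ γ ∈ Y, γ ∈ X ∨ (σ = omega ∧ γ ≠ ∅ ∧ Unb X γ)) :
    ∃ Q ∈ N, Po Q ∧ DirCl N Q μ ∧ (∃ H, Generic N Q H) ∧
      ∀ H, Generic N Q H → ¬ DeltaRefl (Ext N H) κ μ :=
  many_models hW hN hc hμ hκ hσμ hσ hσ0 hU hUW hb hb1 hb2 hF hν hνc hA hAl hcov

end Pool.Agent.Results.MP_a2bc17_lc.InnerModelObstruction
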